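import Mathlib

set_option autoImplicit false

namespace Pool.Agent.H94G

open Set

/-- `Built G S`: the set `S` of points of the plane contains a subset congruent to `G`. -/
def Built (G S : Set ℂ) : Prop := ∃ e : ℂ ≃ᵢ ℂ, e '' G ⊆ S

theorem Built.mono {G S T : Set ℂ} (h : Built G S) (hST : S ⊆ T) : Built G T := by
  obtain ⟨e, he⟩ := h
  exact ⟨e, he.trans hST⟩

theorem Built.image {G S : Set ℂ} (h : Built G S) (t : ℂ ≃ᵢ ℂ) : Built G (t '' S) := by
  obtain ⟨e, he⟩ := h
  refine ⟨e.trans t, ?_⟩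
  rintro _ ⟨x, hx, rfl⟩
  exact ⟨e x, he ⟨x, hx, rfl⟩, rfl⟩

theorem built_image_iff {G S : Set ℂ} (t : ℂ ≃ᵢ ℂ) : Built (t '' G) S ↔ Built G S := by
  constructor
  · rintro ⟨e, he⟩
    refine ⟨t.trans e, ?_⟩
    rintro _ ⟨x, hx, rfl⟩
    exact he ⟨t x, ⟨x, hx, rfl⟩, rfl⟩
  · rintro ⟨e, he⟩
    refine ⟨t.symm.trans e, ?_⟩
    rintro _ ⟨_, ⟨x, hx, rfl⟩, rfl⟩
    refine he ⟨x, hx, ?_⟩
    simp

/-- `WinsIn G n A B`: in the position in which Player 1 has claimed `A` and Player 2 has claimed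
`B`, with Player 1 to move, Player 1 can force to build `G` first within his next `n` moves. -/
def WinsIn (G : Set ℂ) : ℕ → Set ℂ → Set ℂ → Prop
  | 0, _, _ => False
  | n + 1, A, B => ∃ a, a ∉ A ∧ a ∉ B ∧ (Built G (insert a A) ∨
      ∀ b, b ∉ insert a A → b ∉ B →
        ¬ Built G (insert b B) ∧ WinsIn G n (insert a A) (insert b B))

theorem WinsIn.succ {G : Set ℂ} : ∀ {n : ℕ} {A B : Set ℂ}, WinsIn G n A B → WinsIn G (n + 1) A B
  | 0, _, _, h => h.elim
  | n + 1, A, B, h => by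
    obtain ⟨a, ha, hb, h⟩ := h
    refine ⟨a, ha, hb, h.imp id fun h b hb1 hb2 => ?_⟩
    exact ⟨(h b hb1 hb2).1, (h b hb1 hb2).2.succ⟩

theorem WinsIn.mono {G : Set ℂ} {n m : ℕ} (hnm : n ≤ m) {A B : Set ℂ} (h : WinsIn G n A B) :
    WinsIn G m A B := by
  induction hnm with
  | refl => exact h
  | step _ ih => exact ih.succ

theorem WinsIn.congr {G G' : Set ℂ} (hG : ∀ S, Built G S ↔ Built G' S) :
    ∀ {n : ℕ} {A B : Set ℂ}, WinsIn G n A B → WinsIn G' n A B
  | 0, _, _, h => h.elim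
  | n + 1, A, B, h => by
    obtain ⟨a, ha, hb, h⟩ := h
    refine ⟨a, ha, hb, h.imp (hG _).1 fun h b hb1 hb2 => ?_⟩
    exact ⟨fun h' => (h b hb1 hb2).1 ((hG _).2 h'), (h b hb1 hb2).2.congr hG⟩

/-- no three points of `B` with all three distances in `D`. -/
def TriFree (D : Set ℝ) (B : Set ℂ) : Prop :=
  ∀ x ∈ B, ∀ y ∈ B, ∀ z ∈ B, x ≠ y → y ≠ z → x ≠ z →
    dist x y ∈ D → dist y z ∈ D → dist x z ∈ D → False

theorem TriFree.mono {D : Set ℝ} {B B' : Set ℂ} (h : TriFree D B') (hB : B ⊆ B') :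
    TriFree D B :=
  fun x hx y hy z hz => h x (hB hx) y (hB hy) z (hB hz)

/-- the set of distances of `G`. -/
def dists (G : Set ℂ) : Set ℝ := {r | ∃ x ∈ G, ∃ y ∈ G, dist x y = r}

theorem dists_finite (g : Fin 4 → ℂ) : (dists (range g)).Finite := by
  have : dists (range g) ⊆ range (fun ij : Fin 4 × Fin 4 => dist (g ij.1) (g ij.2)) := by
    rintro r ⟨_, ⟨i, rfl⟩, _, ⟨j, rfl⟩, rfl⟩
    exact ⟨(i, j), rfl⟩
  exact (finite_range _).subset this

theorem zero_mem_dists (g : Fin 4 → ℂ) : (0 : ℝ) ∈ dists (range g) :=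
  ⟨g 0, ⟨0, rfl⟩, g 0, ⟨0, rfl⟩, dist_self _⟩

theorem not_built_of_triFree {g : Fin 4 → ℂ} (hg : Function.Injective g) {B : Set ℂ} {b : ℂ}
    (h : TriFree (dists (range g)) B) : ¬ Built (range g) (insert b B) := by
  rintro ⟨e, he⟩
  have h1 : ∀ i, e (g i) = b ∨ e (g i) ∈ B := fun i => he ⟨g i, ⟨i, rfl⟩, rfl⟩
  have h2 : ∀ i j, i ≠ j → e (g i) ≠ e (g j) := fun i j hij h =>
    hij (hg (e.injective h))
  have h3 : ∀ i j, dist (e (g i)) (e (g j)) ∈ dists (range g) := fun i j => by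
    rw [e.isometry.dist_eq]
    exact ⟨g i, ⟨i, rfl⟩, g j, ⟨j, rfl⟩, rfl⟩
  have key : ∀ i j k : Fin 4, i ≠ j → j ≠ k → i ≠ k → e (g i) ∈ B → e (g j) ∈ B →
      e (g k) ∈ B → False := fun i j k hij hjk hik hi hj hk =>
    h _ hi _ hj _ hk (h2 _ _ hij) (h2 _ _ hjk) (h2 _ _ hik) (h3 _ _) (h3 _ _) (h3 _ _)
  have two : ∀ i j : Fin 4, i ≠ j → e (g i) = b → e (g j) = b → False :=
    fun i j hij hi hj => h2 i j hij (hi.trans hj.symm)
  rcases h1 0 with a0 | a0 <;> rcases h1 1 with a1 | a1 <;> rcases h1 2 with a2 | a2 <;>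
    rcases h1 3 with a3 | a3
  all_goals first
    | exact two 0 1 (by decide) a0 a1
    | exact two 0 2 (by decide) a0 a2
    | exact two 0 3 (by decide) a0 a3
    | exact two 1 2 (by decide) a1 a2
    | exact two 1 3 (by decide) a1 a3
    | exact two 2 3 (by decide) a2 a3
    | exact key 0 1 2 (by decide) (by decide) (by decide) a0 a1 a2
    | exact key 0 1 3 (by decide) (by decide) (by decide) a0 a1 a3
    | exact key 0 2 3 (by decide) (by decide) (by decide) a0 a2 a3
    | exact key 1 2 3 (by decide) (by decide) (by decide) a1 a2 a3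

/-- The threats of an attack: `L` lists the moves of Player 1 with the forced answers, `m` is his
last move, after which both `u` and `u'` complete a copy. -/
def Chain (G : Set ℂ) : List (ℂ × ℂ) → ℂ → ℂ → ℂ → Set ℂ → Prop
  | [], m, u, u', A => Built G (insert u (insert m A)) ∧ Built G (insert u' (insert m A))
  | p :: L, m, u, u', A => Built G (insert p.2 (insert p.1 A)) ∧ Chain G L m u u' (insert p.1 A)

/-- all points of an attack. -/
def apts : List (ℂ × ℂ) → ℂ → ℂ → ℂ → List ℂ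
  | [], m, u, u' => [m, u, u']
  | p :: L, m, u, u' => p.1 :: p.2 :: apts L m u u'

theorem Chain.mono {G : Set ℂ} {m u u' : ℂ} : ∀ {L : List (ℂ × ℂ)} {A A' : Set ℂ},
    Chain G L m u u' A → A ⊆ A' → Chain G L m u u' A'
  | [], _, _, h, hA => ⟨h.1.mono (insert_subset_insert (insert_subset_insert hA)),
      h.2.mono (insert_subset_insert (insert_subset_insert hA))⟩
  | _ :: _, _, _, h, hA => ⟨h.1.mono (insert_subset_insert (insert_subset_insert hA)),
      h.2.mono (insert_subset_insert hA)⟩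

theorem Chain.image {G : Set ℂ} (t : ℂ ≃ᵢ ℂ) {m u u' : ℂ} : ∀ {L : List (ℂ × ℂ)} {A : Set ℂ},
    Chain G L m u u' A →
      Chain G (L.map fun p => (t p.1, t p.2)) (t m) (t u) (t u') (t '' A)
  | [], A, h => by
    refine ⟨?_, ?_⟩
    · simpa [image_insert_eq] using h.1.image t
    · simpa [image_insert_eq] using h.2.image t
  | p :: L, A, h => by
    refine ⟨?_, ?_⟩
    · simpa [image_insert_eq] using h.1.image t
    · simpa [image_insert_eq] using Chain.image t h.2

theorem apts_map (t : ℂ → ℂ) (m u u' : ℂ) : ∀ L : List (ℂ × ℂ),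
    apts (L.map fun p => (t p.1, t p.2)) (t m) (t u) (t u') = (apts L m u u').map t
  | [] => rfl
  | p :: L => by simp [apts, apts_map t m u u' L]

theorem snd_mem_apts {m u u' : ℂ} : ∀ {L : List (ℂ × ℂ)} {x : ℂ},
    x ∈ L.map Prod.snd → x ∈ apts L m u u'
  | [], _, h => by simp at h
  | p :: L, x, h => by
    simp only [List.map_cons, List.mem_cons] at h
    rcases h with h | h
    · simp [apts, h]
    · simp [apts, snd_mem_apts h]

theorem wins_of_chain {g : Fin 4 → ℂ} (hg : Function.Injective g) {m u u' : ℂ} :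
    ∀ (L : List (ℂ × ℂ)) (A B : Set ℂ), Chain (range g) L m u u' A →
      (apts L m u u').Nodup → (∀ x ∈ apts L m u u', x ∉ A ∧ x ∉ B) →
      TriFree (dists (range g)) (B ∪ {x | x ∈ L.map Prod.snd}) →
      WinsIn (range g) (L.length + 2) A B
  | [], A, B, hc, hn, hm, ht => by
    have ht' : TriFree (dists (range g)) B := ht.mono subset_union_left
    have hm1 := hm m (by simp [apts])
    have hu1 := hm u (by simp [apts])
    have hu2 := hm u' (by simp [apts])
    simp only [apts, List.nodup_cons, List.mem_cons, List.not_mem_nil, or_false,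
      not_or, List.nodup_nil, and_true, not_false_eq_true] at hn
    obtain ⟨⟨hmu, hmu'⟩, huu'⟩ := hn
    refine ⟨m, hm1.1, hm1.2, Or.inr fun b hb1 hb2 => ⟨not_built_of_triFree hg ht', ?_⟩⟩
    by_cases hbu : b = u
    · refine ⟨u', ?_, ?_, Or.inl hc.2⟩
      · simp only [mem_insert_iff, not_or]
        exact ⟨fun h => hmu' h.symm, hu2.1⟩
      · simp only [mem_insert_iff, not_or]
        exact ⟨fun h => huu' (hbu ▸ h.symm), hu2.2⟩
    · refine ⟨u, ?_, ?_, Or.inl hc.1⟩
      · simp only [mem_insert_iff, not_or]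
        exact ⟨fun h => hmu h.symm, hu1.1⟩
      · simp only [mem_insert_iff, not_or]
        exact ⟨fun h => hbu h.symm, hu1.2⟩
  | p :: L, A, B, hc, hn, hm, ht => by
    have ht' : TriFree (dists (range g)) B := ht.mono subset_union_left
    have hp1 := hm p.1 (by simp [apts])
    have hp2 := hm p.2 (by simp [apts])
    have hn' := hn
    simp only [apts, List.nodup_cons, List.mem_cons, not_or] at hn
    obtain ⟨⟨h12, h1L⟩, h2L, hnL⟩ := hn
    refine ⟨p.1, hp1.1, hp1.2, Or.inr fun b hb1 hb2 => ⟨not_built_of_triFree hg ht', ?_⟩⟩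
    by_cases hbp : b = p.2
    · refine wins_of_chain hg L (insert p.1 A) (insert b B) hc.2 hnL ?_ ?_
      · intro x hx
        have hx' := hm x (by simp [apts, hx])
        simp only [mem_insert_iff, not_or]
        refine ⟨⟨?_, hx'.1⟩, ⟨?_, hx'.2⟩⟩
        · rintro rfl
          exact h1L hx
        · rintro rfl
          exact h2L (hbp ▸ hx)
      · refine ht.mono ?_
        intro x hx
        simp only [mem_union, mem_insert_iff, mem_ofPred_eq, List.map_cons, List.mem_cons] at hx ⊢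
        rcases hx with (hx | hx) | hx
        · exact Or.inr (Or.inl (hx.trans hbp))
        · exact Or.inl hx
        · exact Or.inr (Or.inr hx)
    · refine WinsIn.mono (n := 1) (by simp) ?_
      refine ⟨p.2, ?_, ?_, Or.inl hc.1⟩
      · simp only [mem_insert_iff, not_or]
        exact ⟨fun h => h12 h.symm, hp2.1⟩
      · simp only [mem_insert_iff, not_or]
        exact ⟨fun h => hbp h.symm, hp2.2⟩

end Pool.Agent.H94G
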