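import Mathlib

set_option autoImplicit false

namespace Pool.Agent.H94G

open Set Polynomial

theorem finite_circle (A B : ℂ) (hA : A ≠ 0) (hB : B ≠ 0) (d : ℝ) :
    {β : ℂ | ‖β‖ = 1 ∧ ‖A + β * B‖ = d}.Finite := by
  set P : ℂ[X] := C ((starRingEnd ℂ) A * B) * X ^ 2 +
    C (A * (starRingEnd ℂ) A + B * (starRingEnd ℂ) B - (d : ℂ) ^ 2) * X +
    C (A * (starRingEnd ℂ) B) with hP
  have hP0 : P ≠ 0 := by
    intro h
    have : P.coeff 2 = 0 := by rw [h]; simp
    rw [hP] at this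
    simp only [coeff_add, coeff_C_mul, coeff_X_pow, coeff_X, coeff_C] at this
    norm_num at this
    exact this.elim hA hB
  refine (P.roots.toFinset.finite_toSet).subset ?_
  rintro β ⟨hβ, hd⟩
  simp only [Finset.mem_coe, Multiset.mem_toFinset, mem_roots hP0, IsRoot.def]
  have h1 : β * (starRingEnd ℂ) β = 1 := by
    rw [Complex.mul_conj, Complex.normSq_eq_norm_sq, hβ]; norm_num
  have h2 : (A + β * B) * (starRingEnd ℂ) (A + β * B) = (d : ℂ) ^ 2 := by
    rw [Complex.mul_conj, Complex.normSq_eq_norm_sq, hd]; norm_num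
  rw [map_add, map_mul] at h2
  rw [hP]
  simp only [eval_add, eval_mul, eval_C, eval_pow, eval_X]
  linear_combination β * h2 - (A * (starRingEnd ℂ) B + β * B * (starRingEnd ℂ) B) * h1

theorem sphere_infinite : (Metric.sphere (0 : ℂ) 1).Infinite := by
  have h1 : IsPreconnected (Metric.sphere (0 : ℂ) 1) := by
    apply isPreconnected_sphere
    rw [Complex.rank_real_complex]
    norm_num
  refine h1.infinite_of_nontrivial ?_
  exact ⟨1, by simp, -1, by simp, by norm_num⟩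

theorem exists_generic {S T : Set ℂ} {D : Set ℝ} (hS : S.Finite) (hT : T.Finite)
    (hD : D.Finite) : ∃ β : ℂ, ‖β‖ = 1 ∧
      ∀ A ∈ S, ∀ B ∈ T, A ≠ 0 → B ≠ 0 → ‖A + β * B‖ ∉ D := by
  have hfin : (⋃ A ∈ S, ⋃ B ∈ T, ⋃ d ∈ D,
      {β : ℂ | A ≠ 0 ∧ B ≠ 0 ∧ ‖β‖ = 1 ∧ ‖A + β * B‖ = d}).Finite := by
    refine hS.biUnion fun A _ => hT.biUnion fun B _ => hD.biUnion fun d _ => ?_
    by_cases hA : A = 0
    · refine Set.Finite.subset finite_empty ?_
      rintro β ⟨h, _⟩
      exact absurd hA h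
    by_cases hB : B = 0
    · refine Set.Finite.subset finite_empty ?_
      rintro β ⟨_, h, _⟩
      exact absurd hB h
    · exact (finite_circle A B hA hB d).subset fun β h => h.2.2
  obtain ⟨β, hβ1, hβ2⟩ := sphere_infinite.exists_notMem_finset hfin.toFinset
  refine ⟨β, by simpa using hβ1, fun A hA B hB hA0 hB0 hd => hβ2 ?_⟩
  rw [Finite.mem_toFinset]
  simp only [mem_iUnion]
  exact ⟨A, hA, B, hB, _, hd, hA0, hB0, by simpa using hβ1, rfl⟩

end Pool.Agent.H94G
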