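import Mathlib
import Pool.Agent.H94G.Base
import Pool.Agent.H94G.Generic

set_option autoImplicit false

namespace Pool.Agent.H94G

open Set

/-- `z ↦ c + β z` as an isometry of the plane. -/
noncomputable def mv (c β : ℂ) (hβ : ‖β‖ = 1) : ℂ ≃ᵢ ℂ where
  toFun z := c + β * z
  invFun z := β⁻¹ * (z - c)
  left_inv z := by
    have : β ≠ 0 := fun h => by simp [h] at hβ
    field_simp
    ring
  right_inv z := by
    have : β ≠ 0 := fun h => by simp [h] at hβ
    field_simp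
    ring
  isometry_toFun := by
    apply Isometry.of_dist_eq
    intro x y
    simp only [Complex.dist_eq]
    have : c + β * x - (c + β * y) = β * (x - y) := by ring
    rw [this, norm_mul, hβ, one_mul]

@[simp] theorem mv_apply (c β : ℂ) (hβ : ‖β‖ = 1) (z : ℂ) : mv c β hβ z = c + β * z := rfl

/-- the data of an attack from the pair `{0, v}`. -/
structure Atk where
  L : List (ℂ × ℂ)
  m : ℂ
  u : ℂ
  u' : ℂ

/-- all points. -/
def Atk.pts (o : Atk) : List ℂ := apts o.L o.m o.u o.u'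

/-- the forced answers of Player 2. -/
def Atk.fs (o : Atk) : List ℂ := o.L.map Prod.snd

/-- a valid attack from the pair `{0, v}`. -/
structure Atk.Valid (g : Fin 4 → ℂ) (v : ℂ) (o : Atk) : Prop where
  len : o.L.length ≤ 4
  chain : Chain (range g) o.L o.m o.u o.u' {0, v}
  nodup : o.pts.Nodup
  mem : ∀ x ∈ o.pts, x ≠ 0 ∧ x ≠ v
  tri : TriFree (dists (range g)) {x | x ∈ o.fs}

theorem Atk.fs_subset (o : Atk) {x : ℂ} (h : x ∈ o.fs) : x ∈ o.pts := snd_mem_apts h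

theorem launch {g : Fin 4 → ℂ} (hg : Function.Injective g) {v : ℂ} {o : Atk}
    (hv : o.Valid g v) (t : ℂ ≃ᵢ ℂ) {A B0 : Set ℂ} {b : ℂ}
    (hA0 : t 0 ∈ A) (hAv : t v ∈ A) (hPA : ∀ x ∈ o.pts, t x ∉ A)
    (hPB : ∀ b' ∈ B0, ∀ x ∈ o.pts, b' ≠ t x)
    (hFB : ∀ b' ∈ B0, ∀ f ∈ o.fs, dist b' (t f) ∉ dists (range g))
    (hind : ∀ x ∈ B0, ∀ y ∈ B0, x ≠ y → dist x y ∉ dists (range g))
    (hb1 : ∀ x ∈ o.pts, b ≠ t x)
    (hb2 : ∀ f ∈ o.fs, ∀ f' ∈ o.fs, f ≠ f' → dist b (t f) ∈ dists (range g) →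
      dist b (t f') ∈ dists (range g) → False) :
    WinsIn (range g) 6 A (insert b B0) := by
  have hlen : (o.L.map fun p => (t p.1, t p.2)).length + 2 ≤ 6 := by
    have := hv.len
    simp only [List.length_map]
    omega
  refine WinsIn.mono hlen ?_
  refine wins_of_chain hg (m := t o.m) (u := t o.u) (u' := t o.u')
    (o.L.map fun p => (t p.1, t p.2)) A (insert b B0) ?_ ?_ ?_ ?_
  · refine (hv.chain.image t).mono ?_
    rintro _ ⟨x, hx, rfl⟩
    rcases hx with rfl | rfl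
    · exact hA0
    · exact hAv
  · rw [apts_map]
    exact hv.nodup.map t.injective
  · rw [apts_map]
    intro x hx
    obtain ⟨y, hy, rfl⟩ := List.mem_map.1 hx
    refine ⟨hPA y hy, ?_⟩
    simp only [mem_insert_iff, not_or]
    exact ⟨fun h => hb1 y hy h.symm, fun h => hPB _ h y hy rfl⟩
  · set U : Set ℂ := insert b B0 ∪ {x | x ∈ (o.L.map fun p => (t p.1, t p.2)).map Prod.snd} with hU
    have hUc : ∀ x ∈ U, x = b ∨ x ∈ B0 ∨ ∃ f ∈ o.fs, x = t f := by
      intro x hx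
      rcases hx with (hx | hx) | hx
      · exact Or.inl hx
      · exact Or.inr (Or.inl hx)
      · refine Or.inr (Or.inr ?_)
        have hx' : x ∈ (o.L.map fun p => (t p.1, t p.2)).map Prod.snd := hx
        simp only [List.map_map, List.mem_map] at hx'
        obtain ⟨p, hp, rfl⟩ := hx'
        exact ⟨p.2, List.mem_map.2 ⟨p, hp, rfl⟩, rfl⟩
    have aux : ∀ x ∈ B0, ∀ y ∈ U, x ≠ y → dist x y ∈ dists (range g) → y = b := by
      intro x hx y hy hxy hd
      rcases hUc y hy with h | h | ⟨f, hf, rfl⟩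
      · exact h
      · exact absurd hd (hind x hx y h hxy)
      · exact absurd hd (hFB x hx f hf)
    intro x hx y hy z hz hxy hyz hxz dxy dyz dxz
    by_cases hxB : x ∈ B0
    · exact hyz ((aux x hxB y hy hxy dxy).trans (aux x hxB z hz hxz dxz).symm)
    by_cases hyB : y ∈ B0
    · exact hxz ((aux y hyB x hx hxy.symm (by rwa [dist_comm])).trans
        (aux y hyB z hz hyz dyz).symm)
    by_cases hzB : z ∈ B0
    · exact hxy ((aux z hzB x hx hxz.symm (by rwa [dist_comm])).trans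
        (aux z hzB y hy hyz.symm (by rwa [dist_comm])).symm)
    have hx' := (hUc x hx).imp_right (Or.resolve_left · hxB)
    have hy' := (hUc y hy).imp_right (Or.resolve_left · hyB)
    have hz' := (hUc z hz).imp_right (Or.resolve_left · hzB)
    rcases hx' with rfl | ⟨f1, hf1, rfl⟩
    · rcases hy' with rfl | ⟨f2, hf2, rfl⟩
      · exact hxy rfl
      rcases hz' with rfl | ⟨f3, hf3, rfl⟩
      · exact hxz rfl
      exact hb2 f2 hf2 f3 hf3 (fun h => hyz (by rw [h])) dxy dxz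
    rcases hy' with rfl | ⟨f2, hf2, rfl⟩
    · rcases hz' with rfl | ⟨f3, hf3, rfl⟩
      · exact hyz rfl
      exact hb2 f1 hf1 f3 hf3 (fun h => hxz (by rw [h])) (by rwa [dist_comm]) dyz
    rcases hz' with rfl | ⟨f3, hf3, rfl⟩
    · exact hb2 f1 hf1 f2 hf2 (fun h => hxy (by rw [h])) (by rwa [dist_comm])
        (by rwa [dist_comm])
    rw [t.isometry.dist_eq] at dxy dyz dxz
    exact hv.tri f1 hf1 f2 hf2 f3 hf3 (fun h => hxy (by rw [h])) (fun h => hyz (by rw [h]))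
      (fun h => hxz (by rw [h])) dxy dyz dxz

/-- the bad places for a stone of Player 2, relative to the pair `{0, v}`. -/
def bad (g : Fin 4 → ℂ) (v : ℂ) (O : List Atk) : Set ℂ :=
  {y | y ≠ 0 ∧ y ≠ v ∧ ∃ o ∈ O, y ∈ o.pts ∨ ∃ f ∈ o.fs, ∃ f' ∈ o.fs, f ≠ f' ∧
    dist y f ∈ dists (range g) ∧ dist y f' ∈ dists (range g)}

theorem finite_two_circles (f f' : ℂ) (hf : f ≠ f') (d d' : ℝ) :
    {y : ℂ | dist y f = d ∧ dist y f' = d'}.Finite := by
  by_cases hd : d = 0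
  · refine (finite_singleton f).subset ?_
    rintro y ⟨h, _⟩
    rw [hd] at h
    exact dist_eq_zero.1 h
  have hd' : (d : ℂ) ≠ 0 := by exact_mod_cast hd
  refine ((finite_circle (f - f') (d : ℂ) (sub_ne_zero.2 hf) hd' d').image
    (fun β => f + β * d)).subset ?_
  rintro y ⟨h1, h2⟩
  have hdpos : 0 < d := lt_of_le_of_ne (h1 ▸ dist_nonneg) (Ne.symm hd)
  refine ⟨(y - f) / d, ⟨?_, ?_⟩, ?_⟩
  · rw [norm_div, ← Complex.dist_eq, h1, Complex.norm_real, Real.norm_of_nonneg hdpos.le,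
      div_self hd]
  · rw [div_mul_cancel₀ _ hd', ← h2, Complex.dist_eq]
    congr 1
    ring
  · simp only
    rw [div_mul_cancel₀ _ hd']
    ring

theorem bad_finite (g : Fin 4 → ℂ) (v : ℂ) (O : List Atk) : (bad g v O).Finite := by
  have h : (⋃ o ∈ {o | o ∈ O}, ({y | y ∈ o.pts} ∪ ⋃ f ∈ {f | f ∈ o.fs}, ⋃ f' ∈ {f' | f' ∈ o.fs},
      ⋃ d ∈ dists (range g), ⋃ d' ∈ dists (range g),
        {y : ℂ | f ≠ f' ∧ dist y f = d ∧ dist y f' = d'}) : Set ℂ).Finite := by
    refine (List.finite_toSet O).biUnion fun o _ => ?_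
    refine (List.finite_toSet o.pts).union ?_
    refine (List.finite_toSet o.fs).biUnion fun f _ => (List.finite_toSet o.fs).biUnion fun f' _ =>
      (dists_finite g).biUnion fun d _ => (dists_finite g).biUnion fun d' _ => ?_
    by_cases hf : f = f'
    · refine finite_empty.subset ?_
      rintro y ⟨h, _⟩
      exact absurd hf h
    · exact (finite_two_circles f f' hf d d').subset fun y h => h.2
  refine h.subset ?_
  rintro y ⟨_, _, o, ho, hy⟩
  refine mem_biUnion (show o ∈ {o | o ∈ O} from ho) ?_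
  rcases hy with hy | ⟨f, hf, f', hf', hne, h1, h2⟩
  · exact Or.inl hy
  · refine Or.inr ?_
    refine mem_biUnion (show f ∈ {f | f ∈ o.fs} from hf)
      (mem_biUnion (show f' ∈ {f | f ∈ o.fs} from hf')
        (mem_biUnion h1 (mem_biUnion h2 ⟨hne, rfl, rfl⟩)))

theorem launchK {g : Fin 4 → ℂ} (hg : Function.Injective g) {v : ℂ} {O : List Atk}
    (hO : ∀ o ∈ O, Atk.Valid g v o) {o : Atk} (ho : o ∈ O) (t : ℂ ≃ᵢ ℂ) {A B0 : Set ℂ} {b : ℂ}
    (hA0 : t 0 ∈ A) (hAv : t v ∈ A) (hbA : b ∉ A)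
    (hPA : ∀ x ∈ bad g v O, t x ∉ A)
    (hPB : ∀ b' ∈ B0, ∀ x ∈ bad g v O, b' ≠ t x)
    (hFB : ∀ b' ∈ B0, ∀ f ∈ bad g v O, f ∈ o.fs → dist b' (t f) ∉ dists (range g))
    (hind : ∀ x ∈ B0, ∀ y ∈ B0, x ≠ y → dist x y ∉ dists (range g))
    (hbK : ∀ x ∈ bad g v O, b ≠ t x) :
    WinsIn (range g) 6 A (insert b B0) := by
  have hK : ∀ x ∈ o.pts, x ∈ bad g v O := fun x hx =>
    ⟨((hO o ho).mem x hx).1, ((hO o ho).mem x hx).2, o, ho, Or.inl hx⟩
  refine launch hg (hO o ho) t hA0 hAv (fun x hx => hPA x (hK x hx))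
    (fun b' hb' x hx => hPB b' hb' x (hK x hx))
    (fun b' hb' f hf => hFB b' hb' f (hK f (o.fs_subset hf)) hf) hind
    (fun x hx => hbK x (hK x hx)) ?_
  intro f hf f' hf' hne h1 h2
  obtain ⟨y, rfl⟩ := t.surjective b
  rw [t.isometry.dist_eq] at h1 h2
  refine hbK y ⟨?_, ?_, o, ho, Or.inr ⟨f, hf, f', hf', hne, h1, h2⟩⟩ rfl
  · rintro rfl
    exact hbA hA0
  · rintro rfl
    exact hbA hAv

end Pool.Agent.H94G
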