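import Mathlib
import Pool.Agent.H94G.Strategy

set_option autoImplicit false

namespace Pool.Agent.H94G

open Set

theorem triFree_small {D : Set ℝ} {B : Set ℂ} {x y : ℂ} (h : B ⊆ {x, y}) : TriFree D B := by
  intro a ha b hb c hc hab hbc hac _ _ _
  rcases h ha with rfl | rfl <;> rcases h hb with rfl | rfl <;> rcases h hc with rfl | rfl <;>
    simp_all

theorem triFree_indep {D : Set ℝ} {B : Set ℂ}
    (h : ∀ x ∈ B, ∀ y ∈ B, x ≠ y → dist x y ∉ D) : TriFree D B :=
  fun x hx y hy _ _ hxy _ _ h1 _ _ => h x hx y hy hxy h1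

/-- pairwise non-adjacency for three points. -/
theorem indep3 {D : Set ℝ} {x y z : ℂ} (h1 : dist x y ∉ D) (h2 : dist x z ∉ D)
    (h3 : dist y z ∉ D) : ∀ a ∈ ({x, y, z} : Set ℂ), ∀ b ∈ ({x, y, z} : Set ℂ), a ≠ b →
      dist a b ∉ D := by
  intro a ha b hb hab
  simp only [mem_insert_iff, mem_singleton_iff] at ha hb
  rcases ha with rfl | rfl | rfl <;> rcases hb with rfl | rfl | rfl <;>
    first
      | exact absurd rfl hab
      | assumption
      | (rw [dist_comm]; assumption)

theorem wins_ten {g : Fin 4 → ℂ} (hg : Function.Injective g) {v : ℂ} (hv : v ≠ 0)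
    (O : List Atk) (hO : ∀ o ∈ O, Atk.Valid g v o)
    (hcover : ∀ s : ℂ, ∃ o ∈ O, s ∉ o.fs) : WinsIn (range g) 10 ∅ ∅ := by
  set D := dists (range g) with hD
  have hDfin : D.Finite := dists_finite g
  have hD0 : (0 : ℝ) ∈ D := zero_mem_dists g
  set K := bad g v O with hK
  have hKfin : K.Finite := bad_finite g v O
  have hK0 : ∀ x ∈ K, x ≠ 0 := fun x hx => hx.1
  have hKv : ∀ x ∈ K, x ≠ v := fun x hx => hx.2.1
  set K0 : Set ℂ := insert 0 (insert v K) with hK0def
  have hK0fin : K0.Finite := (hKfin.insert v).insert 0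
  have m0 : (0 : ℂ) ∈ K0 := by simp [hK0def]
  have mv' : v ∈ K0 := by simp [hK0def]
  have mK : ∀ x ∈ K, x ∈ K0 := fun x hx => by simp [hK0def, hx]
  set T : Set ℂ := (fun p : ℂ × ℂ => p.1 - p.2) '' (K0 ×ˢ K0) with hT
  have hTfin : T.Finite := (hK0fin.prod hK0fin).image _
  have mT : ∀ x ∈ K0, ∀ y ∈ K0, x - y ∈ T := fun x hx y hy => ⟨(x, y), ⟨hx, hy⟩, rfl⟩
  -- first move
  refine ⟨0, by simp, by simp, Or.inr fun b1 hb1 _ =>
    ⟨not_built_of_triFree hg (triFree_small (x := 0) (y := 0) (by simp)), ?_⟩⟩
  have hb10 : b1 ≠ 0 := fun h => hb1 (by simp [h])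
  obtain ⟨α, hα, gα⟩ := exists_generic (S := {b1}) (finite_singleton b1) hTfin hDfin
  have hα0 : α ≠ 0 := fun h => by simp [h] at hα
  -- distances of b1 to the structure with direction α
  have dα : ∀ x ∈ K0, x ≠ 0 → dist b1 (α * x) ∉ D := by
    intro x hx hx0
    have := gα b1 rfl (0 - x) (mT 0 m0 x hx) hb10 (by simpa using hx0)
    rwa [show b1 + α * (0 - x) = b1 - α * x by ring, ← Complex.dist_eq] at this
  have neα : ∀ x ∈ K0, b1 ≠ α * x := by
    intro x hx h
    by_cases hx0 : x = 0
    · rw [hx0, mul_zero] at h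
      exact hb10 h
    · exact dα x hx hx0 (by rw [h, dist_self]; exact hD0)
  have hαv : α * v ≠ 0 := mul_ne_zero hα0 hv
  -- second move
  refine ⟨α * v, ?_, ?_, Or.inr fun b2 hb2 hb2' =>
    ⟨not_built_of_triFree hg (triFree_small (x := b1) (y := b1) (by simp)), ?_⟩⟩
  · simpa using hαv
  · have := neα v mv'
    simpa using fun h => this h.symm
  simp only [mem_insert_iff, mem_empty_iff_false, or_false, not_or] at hb2 hb2'
  by_cases c2 : ∀ x ∈ K, b2 ≠ α * x
  · refine WinsIn.mono (n := 6) (by norm_num) ?_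
    obtain ⟨o, ho, -⟩ := hcover 0
    refine launchK hg hO ho (mv 0 α hα) ?_ ?_ ?_ ?_ ?_ ?_ ?_ ?_
    · simp
    · simp
    · simpa using hb2
    · intro x hx
      have h1 := hK0 x hx
      have h2 := hKv x hx
      simp [hα0, h1, h2]
    · intro b' hb' x hx
      simp only [mem_insert_iff, mem_empty_iff_false, or_false] at hb'
      rw [hb', mv_apply, zero_add]
      exact neα x (mK x hx)
    · intro b' hb' f hf _
      simp only [mem_insert_iff, mem_empty_iff_false, or_false] at hb'
      rw [hb', mv_apply, zero_add]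
      exact dα f (mK f hf) (hK0 f hf)
    · intro x hx y hy hxy
      simp only [mem_insert_iff, mem_empty_iff_false, or_false] at hx hy
      exact absurd (hx.trans hy.symm) hxy
    · intro x hx
      rw [mv_apply, zero_add]
      exact c2 x hx
  push Not at c2
  obtain ⟨s', hs', rfl⟩ := c2
  have hs'0 := hK0 s' hs'
  have hs'v := hKv s' hs'
  have d12 : dist b1 (α * s') ∉ D := dα s' (mK s' hs') hs'0
  -- choice of the second direction
  set S : Set ℂ := ((fun x => b1 - α * x) '' K0) ∪
    ((fun p : ℂ × ℂ => α * (p.1 - p.2)) '' (K0 ×ˢ K0)) with hS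
  have hSfin : S.Finite := (hK0fin.image _).union ((hK0fin.prod hK0fin).image _)
  obtain ⟨β, hβ, gβ⟩ := exists_generic (S := S) hSfin hTfin hDfin
  have hβ0 : β ≠ 0 := fun h => by simp [h] at hβ
  have hβv : β * v ≠ 0 := mul_ne_zero hβ0 hv
  have g1 : ∀ x ∈ K0, ∀ y ∈ K0, ∀ z ∈ K0, y ≠ z →
      ‖(b1 - α * x) + β * (y - z)‖ ∉ D := by
    intro x hx y hy z hz hyz
    exact gβ _ (Or.inl ⟨x, hx, rfl⟩) _ (mT y hy z hz) (sub_ne_zero.2 (neα x hx))
      (sub_ne_zero.2 hyz)
  have g2 : ∀ x ∈ K0, ∀ y ∈ K0, ∀ z ∈ K0, ∀ w ∈ K0, x ≠ y → z ≠ w →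
      ‖α * (x - y) + β * (z - w)‖ ∉ D := by
    intro x hx y hy z hz w hw hxy hzw
    exact gβ _ (Or.inr ⟨(x, y), ⟨hx, hy⟩, rfl⟩) _ (mT z hz w hw)
      (mul_ne_zero hα0 (sub_ne_zero.2 hxy)) (sub_ne_zero.2 hzw)
  have ne_of : ∀ {x y : ℂ}, ‖x - y‖ ∉ D → x ≠ y := by
    rintro x y h rfl
    exact h (by simpa using hD0)
  -- the points b1 and b2 against the structure with direction β at 0
  have d1β : ∀ x ∈ K0, x ≠ 0 → ‖b1 - β * x‖ ∉ D := by
    intro x hx hx0
    have := g1 0 m0 0 m0 x hx (Ne.symm hx0)
    rwa [show b1 - α * 0 + β * (0 - x) = b1 - β * x by ring] at this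
  have d2β : ∀ x ∈ K0, x ≠ 0 → ‖α * s' - β * x‖ ∉ D := by
    intro x hx hx0
    have := g2 s' (mK s' hs') 0 m0 0 m0 x hx hs'0 (Ne.symm hx0)
    rwa [show α * (s' - 0) + β * (0 - x) = α * s' - β * x by ring] at this
  have dvβ : ∀ x ∈ K0, x ≠ 0 → ‖α * v - β * x‖ ∉ D := by
    intro x hx hx0
    have := g2 v mv' 0 m0 0 m0 x hx hv (Ne.symm hx0)
    rwa [show α * (v - 0) + β * (0 - x) = α * v - β * x by ring] at this
  -- third move
  refine ⟨β * v, ?_, ?_, Or.inr fun b3 hb3 hb3' =>
    ⟨not_built_of_triFree hg (triFree_small (x := α * s') (y := b1) (by simp [insert_subset_iff])),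
      ?_⟩⟩
  · simp only [mem_insert_iff, mem_empty_iff_false, or_false, not_or]
    exact ⟨fun h => ne_of (dvβ v mv' hv) h.symm, hβv⟩
  · simp only [mem_insert_iff, mem_empty_iff_false, or_false, not_or]
    exact ⟨fun h => ne_of (d2β v mv' hv) h.symm, fun h => ne_of (d1β v mv' hv) h.symm⟩
  simp only [mem_insert_iff, mem_empty_iff_false, or_false, not_or] at hb3 hb3'
  by_cases c3 : ∀ x ∈ K, b3 ≠ β * x
  · refine WinsIn.mono (n := 6) (by norm_num) ?_
    obtain ⟨o, ho, -⟩ := hcover 0
    refine launchK hg hO ho (mv 0 β hβ) ?_ ?_ ?_ ?_ ?_ ?_ ?_ ?_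
    · simp
    · simp
    · simpa using hb3
    · intro x hx
      have h1 := hK0 x hx
      have h2 := hKv x hx
      rw [mv_apply, zero_add]
      simp only [mem_insert_iff, mem_empty_iff_false, or_false, not_or]
      exact ⟨fun h => h2 (mul_left_cancel₀ hβ0 h), fun h => ne_of (dvβ x (mK x hx) h1) h.symm,
        mul_ne_zero hβ0 h1⟩
    · intro b' hb' x hx
      simp only [mem_insert_iff, mem_empty_iff_false, or_false] at hb'
      rw [mv_apply, zero_add]
      rcases hb' with rfl | rfl
      · exact ne_of (d2β x (mK x hx) (hK0 x hx))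
      · exact ne_of (d1β x (mK x hx) (hK0 x hx))
    · intro b' hb' f hf _
      simp only [mem_insert_iff, mem_empty_iff_false, or_false] at hb'
      rw [mv_apply, zero_add, Complex.dist_eq]
      rcases hb' with rfl | rfl
      · exact d2β f (mK f hf) (hK0 f hf)
      · exact d1β f (mK f hf) (hK0 f hf)
    · intro x hx y hy hxy
      simp only [mem_insert_iff, mem_empty_iff_false, or_false] at hx hy
      rcases hx with rfl | rfl <;> rcases hy with rfl | rfl
      · exact absurd rfl hxy
      · rwa [dist_comm]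
      · exact d12
      · exact absurd rfl hxy
    · intro x hx
      rw [mv_apply, zero_add]
      exact c3 x hx
  push Not at c3
  obtain ⟨s, hs, rfl⟩ := c3
  have hs0 := hK0 s hs
  have hsv := hKv s hs
  have d13 : dist b1 (β * s) ∉ D := by
    rw [Complex.dist_eq]
    exact d1β s (mK s hs) hs0
  have d23 : dist (α * s') (β * s) ∉ D := by
    rw [Complex.dist_eq]
    exact d2β s (mK s hs) hs0
  -- fourth move
  have hind : ∀ a ∈ (insert (β * s) (insert (α * s') (insert b1 ∅)) : Set ℂ),
      ∀ b ∈ (insert (β * s) (insert (α * s') (insert b1 ∅)) : Set ℂ), a ≠ b → dist a b ∉ D := by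
    have := indep3 (D := D) (x := β * s) (y := α * s') (z := b1)
      (by rwa [dist_comm]) (by rwa [dist_comm]) (by rwa [dist_comm])
    simpa using this
  refine ⟨α * v + β * v, ?_, ?_, Or.inr fun b4 hb4 hb4' =>
    ⟨not_built_of_triFree hg (triFree_indep hind), ?_⟩⟩
  · simp only [mem_insert_iff, mem_empty_iff_false, or_false, not_or]
    refine ⟨fun h => hαv (by linear_combination h), fun h => hβv (by linear_combination h),
      fun h => ?_⟩
    have := g2 v mv' 0 m0 v mv' 0 m0 hv hv
    rw [show α * (v - 0) + β * (v - 0) = α * v + β * v by ring, h, norm_zero] at this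
    exact this hD0
  · simp only [mem_insert_iff, mem_empty_iff_false, or_false, not_or]
    refine ⟨fun h => ?_, fun h => ?_, fun h => ?_⟩
    · have := g2 v mv' 0 m0 v mv' s (mK s hs) hv (Ne.symm hsv)
      rw [show α * (v - 0) + β * (v - s) = (α * v + β * v) - β * s by ring, h, sub_self,
        norm_zero] at this
      exact this hD0
    · have := g2 v mv' s' (mK s' hs') v mv' 0 m0 (Ne.symm hs'v) hv
      rw [show α * (v - s') + β * (v - 0) = (α * v + β * v) - α * s' by ring, h, sub_self,
        norm_zero] at this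
      exact this hD0
    · have := g1 v mv' 0 m0 v mv' (Ne.symm hv)
      rw [show b1 - α * v + β * (0 - v) = b1 - (α * v + β * v) by ring, h, sub_self,
        norm_zero] at this
      exact this hD0
  simp only [mem_insert_iff, mem_empty_iff_false, or_false, not_or] at hb4 hb4'
  by_cases c4 : ∀ x ∈ K, b4 ≠ α * v + β * x
  · obtain ⟨o, ho, hso⟩ := hcover s
    refine launchK hg hO ho (mv (α * v) β hβ) ?_ ?_ ?_ ?_ ?_ ?_ hind ?_
    · simp
    · simp
    · simpa using hb4
    · intro x hx
      have h1 := hK0 x hx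
      have h2 := hKv x hx
      rw [mv_apply]
      simp only [mem_insert_iff, mem_empty_iff_false, or_false, not_or]
      refine ⟨fun h => h2 (mul_left_cancel₀ hβ0 (add_left_cancel h)), fun h => ?_, fun h => ?_,
        fun h => ?_⟩
      · have := g2 v mv' 0 m0 x (mK x hx) v mv' hv h2
        rw [show α * (v - 0) + β * (x - v) = (α * v + β * x) - β * v by ring, h, sub_self,
          norm_zero] at this
        exact this hD0
      · exact mul_ne_zero hβ0 h1 (by linear_combination h)
      · have := g2 v mv' 0 m0 x (mK x hx) 0 m0 hv h1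
        rw [show α * (v - 0) + β * (x - 0) = α * v + β * x by ring, h, norm_zero] at this
        exact this hD0
    · intro b' hb' x hx
      have h1 := hK0 x hx
      simp only [mem_insert_iff, mem_empty_iff_false, or_false] at hb'
      rw [mv_apply]
      rcases hb' with rfl | rfl | rfl
      · by_cases hxs : x = s
        · rw [hxs]
          exact fun h => hαv (by linear_combination -h)
        · apply Ne.symm
          apply ne_of
          have := g2 v mv' 0 m0 x (mK x hx) s (mK s hs) hv hxs
          rwa [show α * (v - 0) + β * (x - s) = (α * v + β * x) - β * s by ring] at this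
      · apply ne_of
        have := g2 s' (mK s' hs') v mv' 0 m0 x (mK x hx) hs'v (Ne.symm h1)
        rwa [show α * (s' - v) + β * (0 - x) = α * s' - (α * v + β * x) by ring] at this
      · apply ne_of
        have := g1 v mv' 0 m0 x (mK x hx) (Ne.symm h1)
        rwa [show b' - α * v + β * (0 - x) = b' - (α * v + β * x) by ring] at this
    · intro b' hb' f hf hfo
      have h1 := hK0 f hf
      simp only [mem_insert_iff, mem_empty_iff_false, or_false] at hb'
      rw [mv_apply]
      rcases hb' with rfl | rfl | rfl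
      · have hfs : f ≠ s := fun h => hso (h ▸ hfo)
        have := g2 v mv' 0 m0 f (mK f hf) s (mK s hs) hv hfs
        rwa [show α * (v - 0) + β * (f - s) = (α * v + β * f) - β * s by ring,
          ← Complex.dist_eq, dist_comm] at this
      · have := g2 s' (mK s' hs') v mv' 0 m0 f (mK f hf) hs'v (Ne.symm h1)
        rwa [show α * (s' - v) + β * (0 - f) = α * s' - (α * v + β * f) by ring,
          ← Complex.dist_eq] at this
      · have := g1 v mv' 0 m0 f (mK f hf) (Ne.symm h1)
        rwa [show b' - α * v + β * (0 - f) = b' - (α * v + β * f) by ring,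
          ← Complex.dist_eq] at this
    · intro x hx
      rw [mv_apply]
      exact c4 x hx
  · push Not at c4
    obtain ⟨x0, hx0, hb4x⟩ := c4
    have hx00 := hK0 x0 hx0
    have hx0v := hKv x0 hx0
    obtain ⟨o, ho, hso⟩ := hcover s'
    refine launchK hg hO ho (mv (β * v) α hα) ?_ ?_ ?_ ?_ ?_ ?_ hind ?_
    · simp
    · simp [add_comm]
    · simpa using hb4
    · intro x hx
      have h1 := hK0 x hx
      have h2 := hKv x hx
      rw [mv_apply]
      simp only [mem_insert_iff, mem_empty_iff_false, or_false, not_or]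
      refine ⟨fun h => h2 (mul_left_cancel₀ hα0 (by linear_combination h)), fun h => ?_,
        fun h => ?_, fun h => ?_⟩
      · exact mul_ne_zero hα0 h1 (by linear_combination h)
      · have := g2 x (mK x hx) v mv' v mv' 0 m0 h2 hv
        rw [show α * (x - v) + β * (v - 0) = (β * v + α * x) - α * v by ring, h, sub_self,
          norm_zero] at this
        exact this hD0
      · have := g2 x (mK x hx) 0 m0 v mv' 0 m0 h1 hv
        rw [show α * (x - 0) + β * (v - 0) = β * v + α * x by ring, h, norm_zero] at this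
        exact this hD0
    · intro b' hb' x hx
      have h1 := hK0 x hx
      simp only [mem_insert_iff, mem_empty_iff_false, or_false] at hb'
      rw [mv_apply]
      rcases hb' with rfl | rfl | rfl
      · apply ne_of
        have := g2 0 m0 x (mK x hx) s (mK s hs) v mv' (Ne.symm h1) hsv
        rwa [show α * (0 - x) + β * (s - v) = β * s - (β * v + α * x) by ring] at this
      · by_cases hxs : x = s'
        · rw [hxs]
          exact fun h => hβv (by linear_combination -h)
        · apply ne_of
          have := g2 s' (mK s' hs') x (mK x hx) 0 m0 v mv' (Ne.symm hxs) (Ne.symm hv)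
          rwa [show α * (s' - x) + β * (0 - v) = α * s' - (β * v + α * x) by ring] at this
      · apply ne_of
        have := g1 x (mK x hx) 0 m0 v mv' (Ne.symm hv)
        rwa [show b' - α * x + β * (0 - v) = b' - (β * v + α * x) by ring] at this
    · intro b' hb' f hf hfo
      have h1 := hK0 f hf
      simp only [mem_insert_iff, mem_empty_iff_false, or_false] at hb'
      rw [mv_apply]
      rcases hb' with rfl | rfl | rfl
      · have := g2 0 m0 f (mK f hf) s (mK s hs) v mv' (Ne.symm h1) hsv
        rwa [show α * (0 - f) + β * (s - v) = β * s - (β * v + α * f) by ring,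
          ← Complex.dist_eq] at this
      · have hfs : f ≠ s' := fun h => hso (h ▸ hfo)
        have := g2 s' (mK s' hs') f (mK f hf) 0 m0 v mv' (Ne.symm hfs) (Ne.symm hv)
        rwa [show α * (s' - f) + β * (0 - v) = α * s' - (β * v + α * f) by ring,
          ← Complex.dist_eq] at this
      · have := g1 f (mK f hf) 0 m0 v mv' (Ne.symm hv)
        rwa [show b' - α * f + β * (0 - v) = b' - (β * v + α * f) by ring,
          ← Complex.dist_eq] at this
    · intro x hx
      rw [mv_apply, hb4x]
      apply ne_of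
      have h2 := hKv x hx
      have := g2 v mv' x (mK x hx) x0 (mK x0 hx0) v mv' (Ne.symm h2) hx0v
      rwa [show α * (v - x) + β * (x0 - v) = α * v + β * x0 - (β * v + α * x) by ring] at this

end Pool.Agent.H94G
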