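import Mathlib
import Pool.Agent.H94G.Main

set_option autoImplicit false

namespace Pool.Agent.H94G

open Set

theorem built_of_maps {g : Fin 4 → ℂ} {S : Set ℂ} (e : ℂ ≃ᵢ ℂ) (h : ∀ i, e (g i) ∈ S) :
    Built (range g) S := by
  refine ⟨e, ?_⟩
  rintro _ ⟨_, ⟨i, rfl⟩, rfl⟩
  exact h i

theorem four_ne {a b c d : ℂ} (hab : a ≠ b) (hac : a ≠ c) (had : a ≠ d) (hbc : b ≠ c)
    (hbd : b ≠ d) (hcd : c ≠ d) : Function.Injective (![a, b, c, d] : Fin 4 → ℂ) := by
  intro i j h
  fin_cases i <;> fin_cases j <;> simp_all

/-- three equally spaced points `-v, 0, v` and a fourth point `q`. -/
theorem wins_mid {v q : ℂ} (hv : v ≠ 0) (hq : q ≠ 0) (hqv : q ≠ v) (hqv' : q ≠ -v) :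
    WinsIn (range (![0, v, -v, q] : Fin 4 → ℂ)) 10 ∅ ∅ := by
  have hv2 : v ≠ -v := fun h => hv (by linear_combination (1 / 2 : ℂ) * h)
  have hg : Function.Injective (![0, v, -v, q] : Fin 4 → ℂ) :=
    four_ne (Ne.symm hv) (by simpa using hv) (Ne.symm hq) hv2 (Ne.symm hqv) (Ne.symm hqv')
  refine wins_ten hg hv [⟨[], -v, q, -q⟩] ?_ ?_
  · intro o ho
    simp only [List.mem_singleton] at ho
    subst ho
    refine ⟨by simp, ?_, ?_, ?_, ?_⟩
    · refine ⟨built_of_maps (IsometryEquiv.addRight 0) ?_, built_of_maps (IsometryEquiv.subLeft 0) ?_⟩
      · intro i
        fin_cases i <;> simp
      · intro i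
        fin_cases i <;> simp
    · simp only [Atk.pts, apts, List.nodup_cons, List.mem_cons, List.not_mem_nil, or_false,
        not_or, List.nodup_nil, and_true, not_false_eq_true]
      refine ⟨⟨Ne.symm hqv', fun h => hqv (by linear_combination h)⟩, fun h => hq ?_⟩
      linear_combination (1 / 2 : ℂ) * h
    · intro x hx
      simp only [Atk.pts, apts, List.mem_cons, List.not_mem_nil, or_false] at hx
      rcases hx with rfl | rfl | rfl
      · exact ⟨by simpa using hv, fun h => hv2 h.symm⟩
      · exact ⟨hq, hqv⟩
      · exact ⟨by simpa using hq, fun h => hqv' (by linear_combination -h)⟩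
    · intro x hx
      simp [Atk.fs] at hx
  · intro s
    exact ⟨_, List.mem_singleton.2 rfl, by simp [Atk.fs]⟩

/-- the vertex set of a parallelogram `0, v, b, v + b`, possibly degenerate, without three equally
spaced points. -/
theorem wins_par {v b : ℂ} (hv : v ≠ 0) (hb : b ≠ 0) (hvb : v ≠ b) (hvb' : v + b ≠ 0)
    (h1 : v ≠ 2 * b) (h2 : b ≠ 2 * v) (h3 : v + 2 * b ≠ 0) (h4 : b + 2 * v ≠ 0) :
    WinsIn (range (![0, v, b, v + b] : Fin 4 → ℂ)) 10 ∅ ∅ := by
  have hg : Function.Injective (![0, v, b, v + b] : Fin 4 → ℂ) := by
    apply four_ne (Ne.symm hv) (Ne.symm hb) (Ne.symm hvb') hvb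
    · intro h
      exact hb (by linear_combination -h)
    · intro h
      exact hv (by linear_combination -h)
  refine wins_ten hg hv [⟨[(b, v + b), (-v, b - v)], -b, v - b, -v - b⟩,
    ⟨[(-b, v - b), (-v, -v - b)], b, v + b, b - v⟩] ?_ ?_
  · intro o ho
    simp only [List.mem_cons, List.not_mem_nil, or_false] at ho
    rcases ho with rfl | rfl
    · refine ⟨by simp, ?_, ?_, ?_, ?_⟩
      · refine ⟨built_of_maps (IsometryEquiv.addRight 0) ?_,
          built_of_maps (IsometryEquiv.addRight (-v)) ?_,
          built_of_maps (IsometryEquiv.addRight (-b)) ?_,
          built_of_maps (IsometryEquiv.subLeft 0) ?_⟩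
        · intro i
          fin_cases i <;> simp
        · intro i
          fin_cases i <;> simp [sub_eq_add_neg, add_comm]
        · intro i
          fin_cases i <;> simp [sub_eq_add_neg, add_comm]
        · intro i
          fin_cases i <;> simp [sub_eq_add_neg, add_comm]
      · simp only [Atk.pts, apts, List.nodup_cons, List.mem_cons, List.not_mem_nil, or_false,
          not_or, List.nodup_nil, and_true, not_false_eq_true]
        refine ⟨⟨?_, ?_, ?_, ?_, ?_, ?_⟩, ⟨?_, ?_, ?_, ?_, ?_⟩, ⟨?_, ?_, ?_, ?_⟩,
          ⟨?_, ?_, ?_⟩, ⟨?_, ?_⟩, ?_⟩
        all_goals intro h
        all_goals first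
          | exact hv (by linear_combination h)
          | exact hv (by linear_combination -h)
          | exact hv (by linear_combination (1 / 2 : ℂ) * h)
          | exact hv (by linear_combination (-1 / 2 : ℂ) * h)
          | exact hb (by linear_combination h)
          | exact hb (by linear_combination -h)
          | exact hb (by linear_combination (1 / 2 : ℂ) * h)
          | exact hb (by linear_combination (-1 / 2 : ℂ) * h)
          | exact hvb (by linear_combination h)
          | exact hvb (by linear_combination -h)
          | exact hvb (by linear_combination (1 / 2 : ℂ) * h)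
          | exact hvb (by linear_combination (-1 / 2 : ℂ) * h)
          | exact hvb' (by linear_combination h)
          | exact hvb' (by linear_combination -h)
          | exact hvb' (by linear_combination (1 / 2 : ℂ) * h)
          | exact hvb' (by linear_combination (-1 / 2 : ℂ) * h)
          | exact h1 (by linear_combination h)
          | exact h1 (by linear_combination -h)
          | exact h2 (by linear_combination h)
          | exact h2 (by linear_combination -h)
          | exact h3 (by linear_combination h)
          | exact h3 (by linear_combination -h)
          | exact h4 (by linear_combination h)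
          | exact h4 (by linear_combination -h)
      · intro x hx
        simp only [Atk.pts, apts, List.mem_cons, List.not_mem_nil, or_false] at hx
        rcases hx with rfl | rfl | rfl | rfl | rfl | rfl | rfl
        all_goals refine ⟨?_, ?_⟩
        all_goals intro h
        all_goals first
          | exact hv (by linear_combination h)
          | exact hv (by linear_combination -h)
          | exact hv (by linear_combination (-1 / 2 : ℂ) * h)
          | exact hb (by linear_combination h)
          | exact hb (by linear_combination -h)
          | exact hvb (by linear_combination h)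
          | exact hvb (by linear_combination -h)
          | exact hvb' (by linear_combination h)
          | exact hvb' (by linear_combination -h)
          | exact h1 (by linear_combination h)
          | exact h1 (by linear_combination -h)
          | exact h2 (by linear_combination h)
          | exact h2 (by linear_combination -h)
          | exact h3 (by linear_combination h)
          | exact h3 (by linear_combination -h)
          | exact h4 (by linear_combination h)
          | exact h4 (by linear_combination -h)
      · apply triFree_small (x := v + b) (y := b - v)
        intro x hx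
        simpa [Atk.fs] using hx
    · refine ⟨by simp, ?_, ?_, ?_, ?_⟩
      · refine ⟨built_of_maps (IsometryEquiv.addRight (-b)) ?_,
          built_of_maps (IsometryEquiv.subLeft 0) ?_,
          built_of_maps (IsometryEquiv.addRight 0) ?_,
          built_of_maps (IsometryEquiv.addRight (-v)) ?_⟩
        · intro i
          fin_cases i <;> simp [sub_eq_add_neg, add_comm]
        · intro i
          fin_cases i <;> simp [sub_eq_add_neg, add_comm]
        · intro i
          fin_cases i <;> simp [sub_eq_add_neg, add_comm]
        · intro i
          fin_cases i <;> simp [sub_eq_add_neg, add_comm]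
      · simp only [Atk.pts, apts, List.nodup_cons, List.mem_cons, List.not_mem_nil, or_false,
          not_or, List.nodup_nil, and_true, not_false_eq_true]
        refine ⟨⟨?_, ?_, ?_, ?_, ?_, ?_⟩, ⟨?_, ?_, ?_, ?_, ?_⟩, ⟨?_, ?_, ?_, ?_⟩,
          ⟨?_, ?_, ?_⟩, ⟨?_, ?_⟩, ?_⟩
        all_goals intro h
        all_goals first
          | exact hv (by linear_combination h)
          | exact hv (by linear_combination -h)
          | exact hv (by linear_combination (1 / 2 : ℂ) * h)
          | exact hv (by linear_combination (-1 / 2 : ℂ) * h)
          | exact hb (by linear_combination h)
          | exact hb (by linear_combination -h)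
          | exact hb (by linear_combination (1 / 2 : ℂ) * h)
          | exact hb (by linear_combination (-1 / 2 : ℂ) * h)
          | exact hvb (by linear_combination h)
          | exact hvb (by linear_combination -h)
          | exact hvb (by linear_combination (1 / 2 : ℂ) * h)
          | exact hvb (by linear_combination (-1 / 2 : ℂ) * h)
          | exact hvb' (by linear_combination h)
          | exact hvb' (by linear_combination -h)
          | exact hvb' (by linear_combination (1 / 2 : ℂ) * h)
          | exact hvb' (by linear_combination (-1 / 2 : ℂ) * h)
          | exact h1 (by linear_combination h)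
          | exact h1 (by linear_combination -h)
          | exact h2 (by linear_combination h)
          | exact h2 (by linear_combination -h)
          | exact h3 (by linear_combination h)
          | exact h3 (by linear_combination -h)
          | exact h4 (by linear_combination h)
          | exact h4 (by linear_combination -h)
      · intro x hx
        simp only [Atk.pts, apts, List.mem_cons, List.not_mem_nil, or_false] at hx
        rcases hx with rfl | rfl | rfl | rfl | rfl | rfl | rfl
        all_goals refine ⟨?_, ?_⟩
        all_goals intro h
        all_goals first
          | exact hv (by linear_combination h)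
          | exact hv (by linear_combination -h)
          | exact hv (by linear_combination (-1 / 2 : ℂ) * h)
          | exact hb (by linear_combination h)
          | exact hb (by linear_combination -h)
          | exact hvb (by linear_combination h)
          | exact hvb (by linear_combination -h)
          | exact hvb' (by linear_combination h)
          | exact hvb' (by linear_combination -h)
          | exact h1 (by linear_combination h)
          | exact h1 (by linear_combination -h)
          | exact h2 (by linear_combination h)
          | exact h2 (by linear_combination -h)
          | exact h3 (by linear_combination h)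
          | exact h3 (by linear_combination -h)
          | exact h4 (by linear_combination h)
          | exact h4 (by linear_combination -h)
      · apply triFree_small (x := v - b) (y := -v - b)
        intro x hx
        simpa [Atk.fs] using hx
  · intro s
    by_cases hs : s = v + b ∨ s = b - v
    · refine ⟨⟨[(-b, v - b), (-v, -v - b)], b, v + b, b - v⟩, by simp, ?_⟩
      simp only [Atk.fs, List.map_cons, List.map_nil, List.mem_cons, List.not_mem_nil, or_false,
        not_or]
      rcases hs with rfl | rfl
      · refine ⟨fun h => hb (by linear_combination (1 / 2 : ℂ) * h),
          fun h => hvb' (by linear_combination (1 / 2 : ℂ) * h)⟩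
      · refine ⟨fun h => hvb (by linear_combination (-1 / 2 : ℂ) * h),
          fun h => hb (by linear_combination (1 / 2 : ℂ) * h)⟩
    · refine ⟨⟨[(b, v + b), (-v, b - v)], -b, v - b, -v - b⟩, by simp, ?_⟩
      simpa [Atk.fs] using hs

end Pool.Agent.H94G
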