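import Mathlib
import Pool.Agent.H94G.CasesA

set_option autoImplicit false

namespace Pool.Agent.H94G

open Set

/-- the points `g 2 + g i - g j`. -/
def dd (g : Fin 4 → ℂ) (i j : Fin 4) : ℂ := g 2 + g i - g j

theorem built_col {g : Fin 4 → ℂ} {S : Set ℂ} (j : Fin 4) (h : ∀ k, dd g k j ∈ S) :
    Built (range g) S := by
  refine built_of_maps (IsometryEquiv.addRight (g 2 - g j)) fun k => ?_
  have := h k
  rw [dd] at this
  rw [IsometryEquiv.addRight_apply]
  rwa [show g k + (g 2 - g j) = g 2 + g k - g j by ring]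

theorem built_row {g : Fin 4 → ℂ} {S : Set ℂ} (i : Fin 4) (h : ∀ k, dd g i k ∈ S) :
    Built (range g) S := by
  refine built_of_maps (IsometryEquiv.subLeft (g 2 + g i)) fun k => ?_
  have := h k
  rw [dd] at this
  rwa [IsometryEquiv.subLeft_apply]

/-- the generic attack of first kind. -/
def atA (g : Fin 4 → ℂ) : Atk :=
  ⟨[(dd g 2 2, dd g 3 2), (dd g 1 0, dd g 1 3), (dd g 2 0, dd g 3 0), (dd g 2 1, dd g 2 3)],
    dd g 0 1, dd g 3 1, dd g 0 3⟩

/-- the generic attack of second kind. -/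
def atB (g : Fin 4 → ℂ) : Atk :=
  ⟨[(dd g 2 2, dd g 3 2), (dd g 0 1, dd g 0 3), (dd g 2 1, dd g 3 1), (dd g 2 0, dd g 2 3)],
    dd g 1 0, dd g 3 0, dd g 1 3⟩

/-- indices of the points. -/
def idxA : List (Fin 4 × Fin 4) :=
  [(2, 2), (3, 2), (1, 0), (1, 3), (2, 0), (3, 0), (2, 1), (2, 3), (0, 1), (3, 1), (0, 3)]

/-- indices of the points. -/
def idxB : List (Fin 4 × Fin 4) :=
  [(2, 2), (3, 2), (0, 1), (0, 3), (2, 1), (3, 1), (2, 0), (2, 3), (1, 0), (3, 0), (1, 3)]

theorem ptsA (g : Fin 4 → ℂ) : (atA g).pts = idxA.map fun ij => dd g ij.1 ij.2 := rfl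

theorem ptsB (g : Fin 4 → ℂ) : (atB g).pts = idxB.map fun ij => dd g ij.1 ij.2 := rfl

theorem triFree_PM {D : Set ℝ} {a b c d : ℂ} (hac : dist a c ∉ D) (had : dist a d ∉ D)
    (hbc : dist b c ∉ D) (hbd : dist b d ∉ D) : TriFree D {x | x ∈ [a, c, b, d]} := by
  intro x hx y hy z hz hxy hyz hxz dxy dyz dxz
  have hx' : x ∈ [a, c, b, d] := hx
  have hy' : y ∈ [a, c, b, d] := hy
  have hz' : z ∈ [a, c, b, d] := hz
  have hca : dist c a ∉ D := by rwa [dist_comm]
  have hda : dist d a ∉ D := by rwa [dist_comm]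
  have hcb : dist c b ∉ D := by rwa [dist_comm]
  have hdb : dist d b ∉ D := by rwa [dist_comm]
  simp only [List.mem_cons, List.not_mem_nil, or_false] at hx' hy' hz'
  rcases hx' with rfl | rfl | rfl | rfl <;> rcases hy' with rfl | rfl | rfl | rfl <;>
    first
      | exact hxy rfl
      | exact hac dxy
      | exact had dxy
      | exact hbc dxy
      | exact hbd dxy
      | exact hca dxy
      | exact hda dxy
      | exact hcb dxy
      | exact hdb dxy
      | (rcases hz' with rfl | rfl | rfl | rfl <;>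
          first
            | exact hyz rfl
            | exact hxz rfl
            | exact hac dyz
            | exact had dyz
            | exact hbc dyz
            | exact hbd dyz
            | exact hca dyz
            | exact hda dyz
            | exact hcb dyz
            | exact hdb dyz)

theorem Atk.nodup_of_idx {g : Fin 4 → ℂ} {l : List (Fin 4 × Fin 4)} (hl : l.Nodup)
    (hl' : ∀ x ∈ l, x.1 = x.2 → x = (2, 2))
    (hinj : ∀ i j k m, dd g i j = dd g k m → (i = k ∧ j = m) ∨ (i = j ∧ k = m)) :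
    (l.map fun ij => dd g ij.1 ij.2).Nodup := by
  refine List.Nodup.map_on ?_ hl
  intro x hx y hy h
  rcases hinj _ _ _ _ h with h | h
  · exact Prod.ext h.1 h.2
  · rw [hl' x hx h.1, hl' y hy h.2]

theorem validA {g : Fin 4 → ℂ} (h0 : g 0 = 0)
    (hinj : ∀ i j k m, dd g i j = dd g k m → (i = k ∧ j = m) ∨ (i = j ∧ k = m))
    (hcross : ∀ i j, (i, j) ∈ [((1 : Fin 4), (2 : Fin 4)), (2, 2), (1, 0), (2, 0)] →
      dist (dd g 3 j) (dd g i 3) ∉ dists (range g)) :
    (atA g).Valid g (g 1) := by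
  have e0 : dd g 0 2 = 0 := by simp [dd, h0]
  have e1 : dd g 1 2 = g 1 := by simp [dd]
  have ed : ∀ k, dd g k k = dd g 2 2 := fun k => by simp [dd]
  refine ⟨by simp [atA], ?_, ?_, ?_, ?_⟩
  · refine ⟨built_col 2 ?_, built_row 1 ?_, built_col 0 ?_, built_row 2 ?_, built_col 1 ?_,
      built_row 0 ?_⟩
    all_goals
      intro k
      fin_cases k <;> simp [atA, e0, e1, ed 0, ed 1]
  · rw [ptsA]
    exact Atk.nodup_of_idx (by decide) (by decide) hinj
  · intro x hx
    rw [ptsA] at hx
    obtain ⟨ij, hij, rfl⟩ := List.mem_map.1 hx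
    refine ⟨fun h => ?_, fun h => ?_⟩
    · have h' : dd g ij.1 ij.2 = dd g 0 2 := h.trans e0.symm
      rcases hinj _ _ _ _ h' with h1 | h1
      · have : ij = (0, 2) := Prod.ext h1.1 h1.2
        rw [this] at hij
        exact absurd hij (by decide)
      · exact absurd h1.2 (by decide)
    · have h' : dd g ij.1 ij.2 = dd g 1 2 := h.trans e1.symm
      rcases hinj _ _ _ _ h' with h1 | h1
      · have : ij = (1, 2) := Prod.ext h1.1 h1.2
        rw [this] at hij
        exact absurd hij (by decide)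
      · exact absurd h1.2 (by decide)
  · exact triFree_PM (hcross 1 2 (by simp)) (hcross 2 2 (by simp)) (hcross 1 0 (by simp))
      (hcross 2 0 (by simp))

theorem validB {g : Fin 4 → ℂ} (h0 : g 0 = 0)
    (hinj : ∀ i j k m, dd g i j = dd g k m → (i = k ∧ j = m) ∨ (i = j ∧ k = m))
    (hcross : ∀ i j, (i, j) ∈ [((0 : Fin 4), (2 : Fin 4)), (2, 2), (0, 1), (2, 1)] →
      dist (dd g 3 j) (dd g i 3) ∉ dists (range g)) :
    (atB g).Valid g (g 1) := by
  have e0 : dd g 0 2 = 0 := by simp [dd, h0]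
  have e1 : dd g 1 2 = g 1 := by simp [dd]
  have ed : ∀ k, dd g k k = dd g 2 2 := fun k => by simp [dd]
  refine ⟨by simp [atB], ?_, ?_, ?_, ?_⟩
  · refine ⟨built_col 2 ?_, built_row 0 ?_, built_col 1 ?_, built_row 2 ?_, built_col 0 ?_,
      built_row 1 ?_⟩
    all_goals
      intro k
      fin_cases k <;> simp [atB, e0, e1, ed 0, ed 1]
  · rw [ptsB]
    exact Atk.nodup_of_idx (by decide) (by decide) hinj
  · intro x hx
    rw [ptsB] at hx
    obtain ⟨ij, hij, rfl⟩ := List.mem_map.1 hx
    refine ⟨fun h => ?_, fun h => ?_⟩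
    · have h' : dd g ij.1 ij.2 = dd g 0 2 := h.trans e0.symm
      rcases hinj _ _ _ _ h' with h1 | h1
      · have : ij = (0, 2) := Prod.ext h1.1 h1.2
        rw [this] at hij
        exact absurd hij (by decide)
      · exact absurd h1.2 (by decide)
    · have h' : dd g ij.1 ij.2 = dd g 1 2 := h.trans e1.symm
      rcases hinj _ _ _ _ h' with h1 | h1
      · have : ij = (1, 2) := Prod.ext h1.1 h1.2
        rw [this] at hij
        exact absurd hij (by decide)
      · exact absurd h1.2 (by decide)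
  · exact triFree_PM (hcross 0 2 (by simp)) (hcross 2 2 (by simp)) (hcross 0 1 (by simp))
      (hcross 2 1 (by simp))

/-- image of an attack under an isometry. -/
def Atk.map (o : Atk) (t : ℂ → ℂ) : Atk :=
  ⟨o.L.map fun p => (t p.1, t p.2), t o.m, t o.u, t o.u'⟩

theorem Atk.fs_map (o : Atk) (t : ℂ → ℂ) : (o.map t).fs = o.fs.map t := by
  simp [Atk.map, Atk.fs, Function.comp_def]

theorem Atk.Valid.swap {g : Fin 4 → ℂ} {v : ℂ} {o : Atk} (h : o.Valid g v) :
    (o.map fun z => v - z).Valid g v := by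
  set t : ℂ ≃ᵢ ℂ := IsometryEquiv.subLeft v with ht
  have htf : (fun z : ℂ => v - z) = t := by
    funext z
    rw [ht, IsometryEquiv.subLeft_apply]
  have hpts : (o.map fun z => v - z).pts = o.pts.map fun z => v - z := by
    simp only [Atk.pts, Atk.map]
    exact apts_map (fun z => v - z) o.m o.u o.u' o.L
  refine ⟨?_, ?_, ?_, ?_, ?_⟩
  · simpa [Atk.map] using h.len
  · have := h.chain.image t
    have himg : t '' {0, v} = {0, v} := by
      rw [image_pair, ht]
      simp [IsometryEquiv.subLeft_apply, pair_comm]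
    rw [himg] at this
    simpa [Atk.map, htf] using this
  · rw [hpts]
    exact h.nodup.map (sub_right_injective)
  · intro x hx
    rw [hpts] at hx
    obtain ⟨y, hy, rfl⟩ := List.mem_map.1 hx
    have := h.mem y hy
    refine ⟨fun h' => this.2 ?_, fun h' => this.1 ?_⟩
    · linear_combination -h'
    · linear_combination -h'
  · intro x hx y hy z hz hxy hyz hxz
    have hx' : x ∈ (o.map fun z => v - z).fs := hx
    have hy' : y ∈ (o.map fun z => v - z).fs := hy
    have hz' : z ∈ (o.map fun z => v - z).fs := hz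
    rw [Atk.fs_map] at hx' hy' hz'
    obtain ⟨x', hx1, rfl⟩ := List.mem_map.1 hx'
    obtain ⟨y', hy1, rfl⟩ := List.mem_map.1 hy'
    obtain ⟨z', hz1, rfl⟩ := List.mem_map.1 hz'
    simp only [dist_sub_left]
    exact h.tri x' hx1 y' hy1 z' hz1 (fun h => hxy (by rw [h])) (fun h => hyz (by rw [h]))
      (fun h => hxz (by rw [h]))

end Pool.Agent.H94G
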