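import Mathlib
import Pool.Agent.H94G.CasesB

set_option autoImplicit false

namespace Pool.Agent.H94G

open Set

theorem norm_add_gt {x y : ℂ} {r : ℝ} (hx : ‖x‖ = r) (hy : y ≠ 0) (hxy : ‖x - y‖ ≤ r) :
    r < ‖x + y‖ := by
  have h := parallelogram_law_with_norm ℝ x y
  have hy' : 0 < ‖y‖ := norm_pos_iff.2 hy
  have h0 : 0 ≤ ‖x - y‖ := norm_nonneg _
  have h1 : 0 ≤ r := hx ▸ norm_nonneg _
  rw [hx] at h
  by_contra hlt
  push Not at hlt
  have h2 : 0 ≤ ‖x + y‖ := norm_nonneg _
  nlinarith [mul_pos hy' hy', mul_le_mul hlt hlt h2 h1, mul_le_mul hxy hxy h0 h1]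

/-- a four point set all of whose pairwise sums are different. -/
theorem wins_sidon {g : Fin 4 → ℂ} (h0 : g 0 = 0)
    (hs : ∀ i j k m : Fin 4, g i + g j = g k + g m → (i = k ∧ j = m) ∨ (i = m ∧ j = k))
    (hmax : ∀ i j, dist (g i) (g j) ≤ dist (g 2) (g 3))
    (hq : dist (g 2) (g 3) < ‖2 * g 3 - g 1‖) : WinsIn (range g) 10 ∅ ∅ := by
  have hinj0 : Function.Injective g := by
    intro i j h
    have := hs i i j j (by rw [h])
    rcases this with h | h <;> exact h.1
  have hinj : ∀ i j k m, dd g i j = dd g k m → (i = k ∧ j = m) ∨ (i = j ∧ k = m) := by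
    intro i j k m h
    have h' : g i + g m = g k + g j := by
      unfold dd at h
      linear_combination h
    rcases hs _ _ _ _ h' with h1 | h1
    · exact Or.inl ⟨h1.1, h1.2.symm⟩
    · exact Or.inr ⟨h1.1, h1.2.symm⟩
  have hv : g 1 ≠ 0 := fun h => by
    have := hinj0 (h.trans h0.symm)
    exact absurd this (by decide)
  set r := dist (g 2) (g 3) with hr
  have hr' : ‖g 3 - g 2‖ = r := by rw [hr, dist_comm, Complex.dist_eq]
  have hle : ∀ d ∈ dists (range g), d ≤ r := by
    rintro d ⟨_, ⟨i, rfl⟩, _, ⟨j, rfl⟩, rfl⟩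
    exact hmax i j
  have hlt : ∀ i j : Fin 4, r < ‖2 * g 3 - g i - g j‖ →
      dist (dd g 3 j) (dd g i 3) ∉ dists (range g) := by
    intro i j h hd
    have := hle _ hd
    rw [Complex.dist_eq, dd, dd,
      show g 2 + g 3 - g j - (g 2 + g i - g 3) = 2 * g 3 - g i - g j by ring] at this
    exact absurd this (not_le.2 h)
  have h32 : g 3 - g 2 ≠ 0 := sub_ne_zero.2 fun h => absurd (hinj0 h) (by decide)
  have hrpos : 0 < r := by rw [← hr']; exact norm_pos_iff.2 h32
  have c2 : ∀ j : Fin 4, j ≠ 3 → r < ‖2 * g 3 - g 2 - g j‖ := by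
    intro j hj
    have h3j : g 3 - g j ≠ 0 := sub_ne_zero.2 fun h => hj (hinj0 h).symm
    have := norm_add_gt hr' h3j (by
      rw [show g 3 - g 2 - (g 3 - g j) = g j - g 2 by ring, ← Complex.dist_eq]
      exact hmax _ _)
    rwa [show g 3 - g 2 + (g 3 - g j) = 2 * g 3 - g 2 - g j by ring] at this
  have c2' : ∀ j : Fin 4, j ≠ 3 → r < ‖2 * g 3 - g j - g 2‖ := by
    intro j hj
    rw [show 2 * g 3 - g j - g 2 = 2 * g 3 - g 2 - g j by ring]
    exact c2 j hj
  have hA : (atA g).Valid g (g 1) := by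
    refine validA h0 hinj fun i j hij => hlt i j ?_
    simp only [List.mem_cons, Prod.mk.injEq, List.not_mem_nil, or_false] at hij
    rcases hij with ⟨rfl, rfl⟩ | ⟨rfl, rfl⟩ | ⟨rfl, rfl⟩ | ⟨rfl, rfl⟩
    · exact c2' 1 (by decide)
    · exact c2 2 (by decide)
    · rw [h0, sub_zero]
      exact hq
    · exact c2 0 (by decide)
  have hB : (atB g).Valid g (g 1) := by
    refine validB h0 hinj fun i j hij => hlt i j ?_
    simp only [List.mem_cons, Prod.mk.injEq, List.not_mem_nil, or_false] at hij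
    rcases hij with ⟨rfl, rfl⟩ | ⟨rfl, rfl⟩ | ⟨rfl, rfl⟩ | ⟨rfl, rfl⟩
    · exact c2' 0 (by decide)
    · exact c2 2 (by decide)
    · rw [h0, sub_zero]
      exact hq
    · exact c2 1 (by decide)
  refine wins_ten hinj0 hv [atA g, atB g, (atA g).map fun z => g 1 - z,
    (atB g).map fun z => g 1 - z] ?_ ?_
  · intro o ho
    simp only [List.mem_cons, List.not_mem_nil, or_false] at ho
    rcases ho with rfl | rfl | rfl | rfl
    · exact hA
    · exact hB
    · exact hA.swap
    · exact hB.swap
  · intro s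
    have key : ∀ s : ℂ, s ∈ (atA g).fs → s ∈ (atB g).fs → s = dd g 3 2 ∨ s = dd g 2 3 := by
      intro s h1 h2
      simp only [Atk.fs, atA, atB, List.map_cons, List.map_nil, List.mem_cons, List.not_mem_nil,
        or_false] at h1 h2
      rcases h1 with h1 | h1 | h1 | h1
      · exact Or.inl h1
      · rcases h2 with h2 | h2 | h2 | h2
        · exact Or.inl h2
        · exact absurd (hinj _ _ _ _ (h1.symm.trans h2)) (by decide)
        · exact absurd (hinj _ _ _ _ (h1.symm.trans h2)) (by decide)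
        · exact Or.inr h2
      · rcases h2 with h2 | h2 | h2 | h2
        · exact Or.inl h2
        · exact absurd (hinj _ _ _ _ (h1.symm.trans h2)) (by decide)
        · exact absurd (hinj _ _ _ _ (h1.symm.trans h2)) (by decide)
        · exact Or.inr h2
      · exact Or.inr h1
    by_contra hcon
    push Not at hcon
    have hsA := hcon (atA g) (by simp)
    have hsB := hcon (atB g) (by simp)
    have hsA' := hcon ((atA g).map fun z => g 1 - z) (by simp)
    have hsB' := hcon ((atB g).map fun z => g 1 - z) (by simp)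
    rw [Atk.fs_map] at hsA' hsB'
    have hsA2 : g 1 - s ∈ (atA g).fs := by
      obtain ⟨y, hy, hys⟩ := List.mem_map.1 hsA'
      rw [← hys]
      simpa using hy
    have hsB2 : g 1 - s ∈ (atB g).fs := by
      obtain ⟨y, hy, hys⟩ := List.mem_map.1 hsB'
      rw [← hys]
      simpa using hy
    have e32 : dd g 3 2 = g 3 := by simp [dd]
    have e23 : dd g 2 3 = 2 * g 2 - g 3 := by simp [dd]; ring
    rcases key s hsA hsB with h1 | h1 <;> rcases key _ hsA2 hsB2 with h2 | h2 <;>
      rw [h1] at h2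
    · rw [e32] at h2
      have := hs 3 3 0 1 (by rw [h0]; linear_combination -h2)
      exact absurd this (by decide)
    · rw [e32, e23] at h2
      have := hs 2 2 0 1 (by rw [h0]; linear_combination -h2)
      exact absurd this (by decide)
    · rw [e32, e23] at h2
      have := hs 2 2 0 1 (by rw [h0]; linear_combination -h2)
      exact absurd this (by decide)
    · rw [e23] at h2
      -- `2 (2 p - q) = v`
      have h3 : g 3 - g 2 = (1 / 2 : ℂ) * (g 2 + (g 2 - g 1)) := by
        linear_combination (1 / 2 : ℂ) * h2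
      have h4 := parallelogram_law_with_norm ℝ (g 2) (g 2 - g 1)
      have h5 : ‖g 2‖ ≤ r := by
        have := hmax 2 0
        rwa [h0, dist_zero_right] at this
      have h6 : ‖g 2 - g 1‖ ≤ r := by
        have := hmax 2 1
        rwa [Complex.dist_eq] at this
      have h7 : ‖g 2 + (g 2 - g 1)‖ = 2 * r := by
        have : ‖g 3 - g 2‖ = 1 / 2 * ‖g 2 + (g 2 - g 1)‖ := by
          rw [h3, norm_mul]
          norm_num
        rw [hr'] at this
        linarith
      have h8 : g 2 - (g 2 - g 1) = g 1 := by ring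
      rw [h7, h8] at h4
      have h9 : 0 < ‖g 1‖ := norm_pos_iff.2 hv
      nlinarith [mul_pos h9 h9, mul_le_mul h5 h5 (norm_nonneg _) hrpos.le,
        mul_le_mul h6 h6 (norm_nonneg _) hrpos.le]

end Pool.Agent.H94G
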