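import Mathlib
import Pool.Agent.H94G.CasesC

set_option autoImplicit false

namespace Pool.Agent.H94G

open Set

theorem ncard_four {a b c d : ℂ} (hab : a ≠ b) (hac : a ≠ c) (had : a ≠ d) (hbc : b ≠ c)
    (hbd : b ≠ d) (hcd : c ≠ d) : ({a, b, c, d} : Set ℂ).ncard = 4 := by
  rw [ncard_insert_of_notMem (by simp [hab, hac, had]),
    ncard_insert_of_notMem (by simp [hbc, hbd]), ncard_pair hcd]

theorem exists_fourth {G : Set ℂ} (hG : G.ncard = 4) {a b c : ℂ} (ha : a ∈ G) (hb : b ∈ G)
    (hc : c ∈ G) (hab : a ≠ b) (hac : a ≠ c) (hbc : b ≠ c) :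
    ∃ d, a ≠ d ∧ b ≠ d ∧ c ≠ d ∧ G = {a, b, c, d} := by
  have hfin : G.Finite := finite_of_ncard_ne_zero (by omega)
  have : ∃ d ∈ G, d ∉ ({a, b, c} : Set ℂ) := by
    by_contra hcon
    push Not at hcon
    have h1 : G.ncard ≤ ({a, b, c} : Set ℂ).ncard := ncard_le_ncard hcon (by simp)
    have h2 : ({a, b, c} : Set ℂ).ncard ≤ 3 := by
      refine (ncard_insert_le _ _).trans ?_
      have := ncard_insert_le b ({c} : Set ℂ)
      rw [ncard_singleton] at this
      omega
    omega
  obtain ⟨d, hd, hd'⟩ := this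
  simp only [mem_insert_iff, mem_singleton_iff, not_or] at hd'
  refine ⟨d, Ne.symm hd'.1, Ne.symm hd'.2.1, Ne.symm hd'.2.2, ?_⟩
  symm
  apply eq_of_subset_of_ncard_le _ _ hfin
  · rintro x (rfl | rfl | rfl | rfl) <;> assumption
  · rw [hG, ncard_four hab hac (Ne.symm hd'.1) hbc (Ne.symm hd'.2.1) (Ne.symm hd'.2.2)]

theorem exists_rest {G : Set ℂ} (hG : G.ncard = 4) {p q : ℂ} (hp : p ∈ G) (hq : q ∈ G)
    (hpq : p ≠ q) : ∃ u v, u ≠ v ∧ u ≠ p ∧ u ≠ q ∧ v ≠ p ∧ v ≠ q ∧ G = {u, v, p, q} := by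
  have hfin : G.Finite := finite_of_ncard_ne_zero (by omega)
  have : ∃ u ∈ G, u ∉ ({p, q} : Set ℂ) := by
    by_contra hcon
    push Not at hcon
    have h1 : G.ncard ≤ ({p, q} : Set ℂ).ncard := ncard_le_ncard hcon (by simp)
    rw [ncard_pair hpq] at h1
    omega
  obtain ⟨u, hu, hu'⟩ := this
  simp only [mem_insert_iff, mem_singleton_iff, not_or] at hu'
  obtain ⟨v, h1, h2, h3, h4⟩ := exists_fourth hG hp hq hu hpq (Ne.symm hu'.1) (Ne.symm hu'.2)
  refine ⟨u, v, h3, hu'.1, hu'.2, Ne.symm h1, Ne.symm h2, ?_⟩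
  rw [h4]
  ext x
  simp only [mem_insert_iff, mem_singleton_iff]
  tauto

theorem wins_translate {g : Fin 4 → ℂ} {G : Set ℂ} (u : ℂ)
    (h : G = (fun z => z + u) '' range g) (hw : WinsIn (range g) 10 ∅ ∅) :
    WinsIn G 10 ∅ ∅ := by
  refine hw.congr fun S => ?_
  have h' : G = (IsometryEquiv.addRight u) '' range g := h
  rw [h']
  exact (built_image_iff _).symm

theorem range_four (a b c d : ℂ) : range (![a, b, c, d] : Fin 4 → ℂ) = {a, b, c, d} := by
  ext x
  simp only [mem_range, mem_insert_iff, mem_singleton_iff]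
  constructor
  · rintro ⟨i, rfl⟩
    fin_cases i <;> simp
  · rintro (rfl | rfl | rfl | rfl)
    · exact ⟨0, rfl⟩
    · exact ⟨1, rfl⟩
    · exact ⟨2, rfl⟩
    · exact ⟨3, rfl⟩

theorem wins_max {G : Set ℂ} {u v p q : ℂ} (huv : u ≠ v) (hup : u ≠ p) (huq : u ≠ q)
    (hvp : v ≠ p) (hvq : v ≠ q) (hpq : p ≠ q) (hG : G = {u, v, p, q})
    (hsid : ∀ x ∈ G, ∀ y ∈ G, ∀ z ∈ G, ∀ w ∈ G, x + y = z + w →
      (x = z ∧ y = w) ∨ (x = w ∧ y = z))
    (hmax : ∀ x ∈ G, ∀ y ∈ G, dist x y ≤ dist p q) (hq : dist p q < ‖2 * q - u - v‖) :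
    WinsIn G 10 ∅ ∅ := by
  set g : Fin 4 → ℂ := ![0, v - u, p - u, q - u] with hg
  have hinj : Function.Injective g := by
    apply four_ne
    · exact (sub_ne_zero.2 huv.symm).symm
    · exact (sub_ne_zero.2 hup.symm).symm
    · exact (sub_ne_zero.2 huq.symm).symm
    · exact fun h => hvp (sub_left_injective h)
    · exact fun h => hvq (sub_left_injective h)
    · exact fun h => hpq (sub_left_injective h)
  have hGg : G = (fun z => z + u) '' range g := by
    rw [hG, hg, range_four]
    simp only [image_insert_eq, image_singleton, zero_add, sub_add_cancel]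
  have hmem : ∀ i, g i + u ∈ G := fun i => by
    rw [hGg]
    exact ⟨g i, ⟨i, rfl⟩, rfl⟩
  refine wins_translate u hGg (wins_sidon (g := g) rfl ?_ ?_ ?_)
  · intro i j k m h
    have h' : (g i + u) + (g j + u) = (g k + u) + (g m + u) := by linear_combination h
    rcases hsid _ (hmem i) _ (hmem j) _ (hmem k) _ (hmem m) h' with h1 | h1
    · exact Or.inl ⟨hinj (add_left_injective u h1.1), hinj (add_left_injective u h1.2)⟩
    · exact Or.inr ⟨hinj (add_left_injective u h1.1), hinj (add_left_injective u h1.2)⟩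
  · intro i j
    have h2 : dist (g 2) (g 3) = dist p q := by
      simp [hg]
    rw [h2, ← dist_add_right (g i) (g j) u]
    exact hmax _ (hmem i) _ (hmem j)
  · have h2 : dist (g 2) (g 3) = dist p q := by
      simp [hg]
    rw [h2]
    have h3 : 2 * g 3 - g 1 = 2 * q - u - v := by
      simp [hg]
      ring
    rw [h3]
    exact hq

theorem wins_four {G : Set ℂ} (hG : G.ncard = 4) : WinsIn G 10 ∅ ∅ := by
  have hfin : G.Finite := finite_of_ncard_ne_zero (by omega)
  by_cases hIII : ∃ a ∈ G, ∃ b ∈ G, ∃ c ∈ G, b ≠ c ∧ b + c = 2 * a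
  · obtain ⟨a, ha, b, hb, c, hc, hbc, hbca⟩ := hIII
    have hab : a ≠ b := fun h => hbc (by rw [h] at hbca; linear_combination -hbca)
    have hac : a ≠ c := fun h => hbc (by rw [h] at hbca; linear_combination hbca)
    obtain ⟨d, h1, h2, h3, h4⟩ := exists_fourth hG ha hb hc hab hac hbc
    refine wins_translate (g := ![0, b - a, -(b - a), d - a]) a ?_
      (wins_mid (sub_ne_zero.2 hab.symm) (sub_ne_zero.2 h1.symm) ?_ ?_)
    · rw [h4, range_four]
      have hc' : -(b - a) + a = c := by linear_combination -hbca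
      simp only [image_insert_eq, image_singleton, zero_add, sub_add_cancel, hc']
    · exact fun h => h2 (by linear_combination -h)
    · exact fun h => h3 (by linear_combination hbca - h)
  push Not at hIII
  by_cases hII : ∃ a ∈ G, ∃ b ∈ G, ∃ c ∈ G, ∃ d ∈ G, a ≠ b ∧ a ≠ c ∧ a ≠ d ∧ b ≠ c ∧ b ≠ d ∧
      c ≠ d ∧ a + b = c + d
  · obtain ⟨a, ha, b, hb, c, hc, d, hd, hab, hac, had, hbc, hbd, hcd, hs⟩ := hII
    have hG4 : G = {a, c, d, b} := by
      symm
      apply eq_of_subset_of_ncard_le _ _ hfin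
      · rintro x (rfl | rfl | rfl | rfl) <;> assumption
      · rw [hG, ncard_four hac had hab hcd hbc.symm hbd.symm]
    refine wins_translate (g := ![0, c - a, d - a, (c - a) + (d - a)]) a ?_
      (wins_par (sub_ne_zero.2 hac.symm) (sub_ne_zero.2 had.symm) ?_ ?_ ?_ ?_ ?_ ?_)
    · rw [hG4, range_four]
      have hb' : c - a + (d - a) + a = b := by linear_combination -hs
      simp only [image_insert_eq, image_singleton, zero_add, sub_add_cancel, hb']
    · exact fun h => hcd (sub_left_injective h)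
    · exact fun h => hab (by linear_combination -hs - h)
    · exact fun h => hIII d hd c hc a ha hac.symm (by linear_combination h)
    · exact fun h => hIII c hc d hd a ha had.symm (by linear_combination h)
    · exact fun h => hIII a ha b hb d hd hbd (by linear_combination hs + h)
    · exact fun h => hIII a ha b hb c hc hbc (by linear_combination hs + h)
  push Not at hII
  have hsid : ∀ x ∈ G, ∀ y ∈ G, ∀ z ∈ G, ∀ w ∈ G, x + y = z + w →
      (x = z ∧ y = w) ∨ (x = w ∧ y = z) := by
    intro x hx y hy z hz w hw h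
    by_cases hxz : x = z
    · exact Or.inl ⟨hxz, by rw [hxz] at h; exact add_left_cancel h⟩
    by_cases hxw : x = w
    · exact Or.inr ⟨hxw, by rw [hxw] at h; linear_combination h⟩
    by_cases hyz : y = z
    · exact absurd (by rw [hyz] at h; linear_combination h) hxw
    by_cases hyw : y = w
    · exact absurd (by rw [hyw] at h; exact add_right_cancel h) hxz
    by_cases hxy : x = y
    · by_cases hzw : z = w
      · exfalso
        apply hxz
        rw [← hxy, ← hzw] at h
        linear_combination (1 / 2 : ℂ) * h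
      · exact absurd (by rw [← hxy] at h; linear_combination -h) (hIII x hx z hz w hw hzw)
    by_cases hzw : z = w
    · exact absurd (by rw [← hzw] at h; linear_combination h) (hIII z hz x hx y hy hxy)
    exact absurd h (hII x hx y hy z hz w hw hxy hxz hxw hyz hyw hzw)
  -- a pair at maximal distance
  obtain ⟨⟨p, q⟩, hpq, hmax⟩ := (hfin.prod hfin).exists_maximalFor
    (fun z : ℂ × ℂ => dist z.1 z.2) (G ×ˢ G) (by
      have : G.Nonempty := nonempty_of_ncard_ne_zero (by omega)
      exact this.prod this)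
  have hmax' : ∀ x ∈ G, ∀ y ∈ G, dist x y ≤ dist p q := by
    intro x hx y hy
    by_contra hlt
    push Not at hlt
    have := hmax (show (x, y) ∈ G ×ˢ G from ⟨hx, hy⟩) hlt.le
    exact absurd this (not_le.2 hlt)
  have hpG : p ∈ G := hpq.1
  have hqG : q ∈ G := hpq.2
  have hne : p ≠ q := by
    intro h
    have : ∀ x ∈ G, ∀ y ∈ G, x = y := by
      intro x hx y hy
      have := hmax' x hx y hy
      rw [h, dist_self] at this
      exact dist_le_zero.1 this
    have h1 : G.ncard ≤ 1 := (ncard_le_one hfin).2 fun a ha b hb => this a ha b hb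
    omega
  obtain ⟨u, v, huv, hup, huq, hvp, hvq, hG'⟩ := exists_rest hG hpG hqG hne
  by_cases hc : dist p q < ‖2 * q - u - v‖
  · exact wins_max huv hup huq hvp hvq hne hG' hsid hmax' hc
  by_cases hc' : dist p q < ‖2 * p - u - v‖
  · refine wins_max (p := q) (q := p) huv huq hup hvq hvp hne.symm ?_ hsid ?_ ?_
    · rw [hG']
      ext x
      simp only [mem_insert_iff, mem_singleton_iff]
      tauto
    · intro x hx y hy
      rw [dist_comm q p]
      exact hmax' x hx y hy
    · rwa [dist_comm q p]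
  exfalso
  push Not at hc hc'
  have h4 := parallelogram_law_with_norm ℝ (2 * q - u - v) (2 * p - u - v)
  have h5 : 2 * q - u - v - (2 * p - u - v) = 2 * (q - p) := by ring
  have h6 : ‖2 * q - u - v - (2 * p - u - v)‖ = 2 * dist p q := by
    rw [h5, norm_mul, dist_comm, Complex.dist_eq]
    norm_num
  rw [h6] at h4
  have h7 : 0 ≤ dist p q := dist_nonneg
  have h8 : ‖2 * q - u - v + (2 * p - u - v)‖ = 0 := by
    have h9 := norm_nonneg (2 * q - u - v + (2 * p - u - v))
    have : ‖2 * q - u - v + (2 * p - u - v)‖ * ‖2 * q - u - v + (2 * p - u - v)‖ ≤ 0 := by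
      nlinarith [mul_le_mul hc hc (norm_nonneg _) h7, mul_le_mul hc' hc' (norm_nonneg _) h7]
    nlinarith
  have h10 : p + q = u + v := by
    have := norm_eq_zero.1 h8
    linear_combination (1 / 2 : ℂ) * this
  have hu : u ∈ G := by rw [hG']; simp
  have hv : v ∈ G := by rw [hG']; simp
  rcases hsid p hpG q hqG u hu v hv h10 with h | h
  · exact hup h.1.symm
  · exact hvp h.1.symm

end Pool.Agent.H94G
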